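import Mathlib

set_option autoImplicit false

namespace Pool.Agent.Results.MP_f73544_nt.ExpandingLoops

open Filter Topology Relation

/-- Parameters of a generalised Collatz map: `T x = (m_i x + a_i) / d` for `x ≡ i (mod d)`, with
`m_i = b_i δ_i`, `b_i` coprime to `d` and `δ_i` a natural number dividing a power of `d`. -/
structure Params where
  /-- the modulus -/
  d : ℕ
  /-- the part of the multiplier coprime to `d` -/
  b : ℤ → ℤ
  /-- the part of the multiplier dividing a power of `d` -/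
  δ : ℤ → ℕ
  /-- the constants -/
  a : ℤ → ℤ
  two_le : 2 ≤ d
  coprime : ∀ i : ℤ, 0 ≤ i → i < d → IsCoprime (b i) (d : ℤ)
  power : ∀ i : ℤ, 0 ≤ i → i < d → ∃ N : ℕ, δ i ∣ d ^ N
  integral : ∀ i : ℤ, 0 ≤ i → i < d → (d : ℤ) ∣ b i * δ i * i + a i

variable (P : Params)

/-- The generalised Collatz map. -/
def T (x : ℤ) : ℤ := (P.b (x % P.d) * P.δ (x % P.d) * x + P.a (x % P.d)) / P.d

/-- The trajectory of `x` is not eventually periodic. -/
def Divergent (x : ℤ) : Prop := ¬ ∃ N p : ℕ, 0 < p ∧ (T P)^[N + p] x = (T P)^[N] x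

/-- `gcd (k δ_j, d)` -/
def gg (k : ℕ) (j : ℤ) : ℕ := Nat.gcd (k * P.δ (j % P.d)) P.d

/-- `k δ_j / gcd (k δ_j, d)` -/
def knext (k : ℕ) (j : ℤ) : ℕ := k * P.δ (j % P.d) / gg P k j

/-- The sequence `k_n` of the trajectory of `x`. -/
def kk (x : ℤ) : ℕ → ℕ
  | 0 => 1
  | n + 1 => knext P (kk x n) ((T P)^[n] x)

/-- Leigh's chain along the trajectory of `x`. The class `B(j, m k)` is written as the pair
`(k, j)` with `0 ≤ j < m k`. -/
def Y (m : ℕ) (x : ℤ) (n : ℕ) : ℕ × ℤ := (kk P x n, (T P)^[n] x % (m * kk P x n : ℕ))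

/-- The set of integers in the class `B(j, m k)`. -/
def cls (m : ℕ) (B : ℕ × ℤ) : Set ℤ := {y | y ≡ B.2 [ZMOD (m * B.1 : ℕ)]}

open Classical in
/-- The transition probabilities of Leigh's chain. -/
noncomputable def q (m : ℕ) (B B' : ℕ × ℤ) : ℝ :=
  if B'.1 = knext P B.1 B.2 ∧ 0 ≤ B'.2 ∧ B'.2 < (m * B'.1 : ℕ) ∧
    B'.2 ≡ T P B.2 [ZMOD (m * (B.1 * P.δ (B.2 % P.d)) / P.d : ℕ)]
  then (gg P B.1 B.2 : ℝ) / P.d else 0

/-- A transition of positive probability. -/
def Step (m : ℕ) (B B' : ℕ × ℤ) : Prop := 0 < q P m B B'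

/-- The states: classes reachable with positive probability from the classes `B(i, m)`. -/
def IsState (m : ℕ) (B : ℕ × ℤ) : Prop :=
  ∃ i : ℤ, 0 ≤ i ∧ i < m ∧ ReflTransGen (Step P m) (1, i) B

/-- A closed communicating class of states. -/
def IsClass (m : ℕ) (C : Finset (ℕ × ℤ)) : Prop :=
  C.Nonempty ∧ (∀ B ∈ C, IsState P m B) ∧ (∀ B ∈ C, ∀ B', Step P m B B' → B' ∈ C) ∧
    ∀ B ∈ C, ∀ B' ∈ C, ReflTransGen (Step P m) B B'

/-- A stationary distribution on a closed class. -/
def IsStationary (m : ℕ) (C : Finset (ℕ × ℤ)) (ρ : ℕ × ℤ → ℝ) : Prop :=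
  (∀ B ∈ C, 0 ≤ ρ B) ∧ ∑ B ∈ C, ρ B = 1 ∧ ∀ B' ∈ C, ρ B' = ∑ B ∈ C, ρ B * q P m B B'

/-- The chain branches at the class `B`: the transitions from `B` have probability less than
one. -/
def Branching (B : ℕ × ℤ) : Prop := gg P B.1 B.2 < P.d

/-- The modulus of `b_j` times the common probability `gcd (k δ_j, d) / d` of the transitions
from the class `B = B(j, m k)`. -/
noncomputable def weight (B : ℕ × ℤ) : ℝ :=
  |(P.b (B.2 % P.d) : ℝ)| * (gg P B.1 B.2 / P.d)

/-- The chain along the trajectory of `x` makes the transition `B → B'` infinitely often. -/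
def Recurs (m : ℕ) (x : ℤ) (B B' : ℕ × ℤ) : Prop :=
  ∃ᶠ n in atTop, Y P m x n = B ∧ Y P m x (n + 1) = B'

/-- The conclusion of Leigh's question for the integer `x`. -/
def Conclusion (m : ℕ) (x : ℤ) : Prop :=
  ∃ C : Finset (ℕ × ℤ), IsClass P m C ∧
    (∀ᶠ n in atTop, ∃ B ∈ C, (T P)^[n] x ∈ cls m B) ∧
    (∃ ρ, IsStationary P m C ρ) ∧
    ∀ ρ, IsStationary P m C ρ → ∀ B ∈ C,
      Tendsto (fun K : ℕ => (Nat.card {n : ℕ // n ≤ K ∧ Y P m x n = B} : ℝ) / (K + 1))
        atTop (𝓝 (ρ B))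

section basic

lemma d_pos : 0 < P.d := lt_of_lt_of_le (by norm_num) P.two_le

lemma d_ne : (P.d : ℤ) ≠ 0 := by
  have := d_pos P
  exact_mod_cast this.ne'

lemma mod_nonneg (y : ℤ) : 0 ≤ y % P.d := Int.emod_nonneg _ (d_ne P)

lemma mod_lt (y : ℤ) : y % P.d < P.d := Int.emod_lt_of_pos _ (by exact_mod_cast d_pos P)

lemma T_mul (y : ℤ) : (P.d : ℤ) * T P y =
    P.b (y % P.d) * P.δ (y % P.d) * y + P.a (y % P.d) := by
  unfold T
  apply Int.mul_ediv_cancel'
  have h1 := P.integral (y % P.d) (mod_nonneg P y) (mod_lt P y)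
  have h2 : P.b (y % P.d) * P.δ (y % P.d) * y + P.a (y % P.d) =
      (P.b (y % P.d) * P.δ (y % P.d) * (y % P.d) + P.a (y % P.d)) +
        (P.d : ℤ) * (P.b (y % P.d) * P.δ (y % P.d) * (y / P.d)) := by
    have h3 := Int.emod_add_mul_ediv y P.d
    linear_combination (-(P.b (y % P.d) * P.δ (y % P.d) : ℤ)) * h3
  rw [h2]
  exact dvd_add h1 (Dvd.intro _ rfl)

lemma δ_pos (y : ℤ) : 0 < P.δ (y % P.d) := by
  obtain ⟨N, hN⟩ := P.power (y % P.d) (mod_nonneg P y) (mod_lt P y)
  exact Nat.pos_of_dvd_of_pos hN (pow_pos (d_pos P) N)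

lemma gg_pos (k : ℕ) (j : ℤ) : 0 < gg P k j := Nat.gcd_pos_of_pos_right _ (d_pos P)

lemma gg_le (k : ℕ) (j : ℤ) : gg P k j ≤ P.d := Nat.gcd_le_right _ (d_pos P)

lemma knext_mul (k : ℕ) (j : ℤ) : knext P k j * gg P k j = k * P.δ (j % P.d) :=
  Nat.div_mul_cancel (Nat.gcd_dvd_left _ _)

lemma knext_pos (k : ℕ) (hk : 0 < k) (j : ℤ) : 0 < knext P k j := by
  have h := knext_mul P k j
  have h2 : 0 < k * P.δ (j % P.d) := Nat.mul_pos hk (δ_pos P j)
  rw [← h] at h2
  rcases Nat.eq_zero_or_pos (knext P k j) with h3 | h3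
  · rw [h3, zero_mul] at h2; exact absurd h2 (lt_irrefl _)
  · exact h3

lemma kk_pos (x : ℤ) (n : ℕ) : 0 < kk P x n := by
  induction n with
  | zero => exact Nat.one_pos
  | succ n ih => exact knext_pos P _ ih _

lemma T_congr (m k : ℕ) (y y' : ℤ) (hdm : P.d ∣ m) (h : y ≡ y' [ZMOD (m * k : ℕ)]) :
    y % P.d = y' % P.d ∧
      T P y ≡ T P y' [ZMOD (m * (k * P.δ (y % P.d)) / P.d : ℕ)] := by
  obtain ⟨m', rfl⟩ := hdm
  have h1 : y % P.d = y' % P.d := by
    have : y ≡ y' [ZMOD (P.d : ℤ)] := h.of_dvd (by push_cast; exact ⟨m' * k, by ring⟩)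
    exact this
  refine ⟨h1, ?_⟩
  have h2 : P.d * m' * (k * P.δ (y % P.d)) / P.d = m' * (k * P.δ (y % P.d)) := by
    rw [mul_assoc, Nat.mul_div_cancel_left _ (d_pos P)]
  rw [h2]
  rw [Int.modEq_iff_dvd] at h ⊢
  obtain ⟨s, hs⟩ := h
  have e1 := T_mul P y
  have e2 := T_mul P y'
  rw [← h1] at e2
  refine ⟨P.b (y % P.d) * s, ?_⟩
  apply mul_left_cancel₀ (d_ne P)
  push_cast at hs ⊢
  linear_combination e2 - e1 + (P.b (y % P.d) * P.δ (y % P.d) : ℤ) * hs

variable {P} {m : ℕ}

lemma Y_mod (hdm : P.d ∣ m) (x : ℤ) (n : ℕ) :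
    (Y P m x n).2 % P.d = (T P)^[n] x % P.d := by
  unfold Y
  apply Int.emod_emod_of_dvd
  exact_mod_cast hdm.mul_right _

lemma Y_congr (x : ℤ) (n : ℕ) :
    (T P)^[n] x ≡ (Y P m x n).2 [ZMOD (m * (Y P m x n).1 : ℕ)] :=
  (Int.mod_modEq _ _).symm

lemma gg_Y (hdm : P.d ∣ m) (x : ℤ) (n : ℕ) :
    gg P (Y P m x n).1 (Y P m x n).2 = gg P (kk P x n) ((T P)^[n] x) := by
  unfold gg
  rw [Y_mod hdm]
  rfl

lemma knext_Y (hdm : P.d ∣ m) (x : ℤ) (n : ℕ) :
    knext P (Y P m x n).1 (Y P m x n).2 = kk P x (n + 1) := by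
  show _ = knext P (kk P x n) ((T P)^[n] x)
  unfold knext
  rw [gg_Y hdm, Y_mod hdm]
  rfl

lemma q_pos_iff (B B' : ℕ × ℤ) : Step P m B B' ↔ (B'.1 = knext P B.1 B.2 ∧ 0 ≤ B'.2 ∧
    B'.2 < (m * B'.1 : ℕ) ∧
    B'.2 ≡ T P B.2 [ZMOD (m * (B.1 * P.δ (B.2 % P.d)) / P.d : ℕ)]) := by
  unfold Step q
  split_ifs with h
  · have h1 := gg_pos P B.1 B.2
    have h2 := d_pos P
    have : (0 : ℝ) < (gg P B.1 B.2 : ℝ) / P.d := by positivity
    exact ⟨fun _ => h, fun _ => this⟩
  · exact ⟨fun h' => absurd h' (lt_irrefl _), fun h' => absurd h' h⟩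

lemma q_eq_of_step (B B' : ℕ × ℤ) (h : Step P m B B') : q P m B B' = (gg P B.1 B.2 : ℝ) / P.d := by
  have h' := (q_pos_iff B B').1 h
  unfold q
  rw [if_pos h']

lemma q_eq_zero (B B' : ℕ × ℤ) (h : ¬ Step P m B B') : q P m B B' = 0 := by
  rw [q_pos_iff] at h
  unfold q
  rw [if_neg h]

lemma step_Y (hdm : P.d ∣ m) (hm : 0 < m) (x : ℤ) (n : ℕ) :
    Step P m (Y P m x n) (Y P m x (n + 1)) := by
  rw [q_pos_iff]
  have hk := kk_pos P x (n + 1)
  have hM : (0 : ℤ) < (m * kk P x (n + 1) : ℕ) := by exact_mod_cast Nat.mul_pos hm hk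
  refine ⟨(knext_Y hdm x n).symm, Int.emod_nonneg _ hM.ne', Int.emod_lt_of_pos _ hM, ?_⟩
  have h1 := T_congr P m (Y P m x n).1 _ _ hdm (Y_congr (m := m) x n)
  rw [← h1.1]
  have h2 : (T P)^[n + 1] x = T P ((T P)^[n] x) := Function.iterate_succ_apply' _ _ _
  have h3 : (Y P m x (n + 1)).2 ≡ T P ((T P)^[n] x) [ZMOD (m * kk P x (n + 1) : ℕ)] := by
    rw [← h2]
    exact (Y_congr (m := m) x (n + 1)).symm
  refine (h3.of_dvd ?_).trans h1.2
  have h4 := knext_mul P (kk P x n) ((T P)^[n] x)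
  obtain ⟨e, he⟩ : gg P (kk P x n) ((T P)^[n] x) ∣ P.d := Nat.gcd_dvd_right _ _
  obtain ⟨m', hm'⟩ := hdm
  have h5 : m * (kk P x n * P.δ ((T P)^[n] x % P.d)) / P.d =
      m' * (kk P x n * P.δ ((T P)^[n] x % P.d)) := by
    rw [hm', mul_assoc, Nat.mul_div_cancel_left _ (d_pos P)]
  have h6 : m * kk P x (n + 1) =
      (m' * (kk P x n * P.δ ((T P)^[n] x % P.d))) * e := by
    change m * knext P (kk P x n) ((T P)^[n] x) = _
    rw [← h4, hm']
    nth_rewrite 1 [he]
    ring
  change ((m * (kk P x n * P.δ ((T P)^[n] x % P.d)) / P.d : ℕ) : ℤ) ∣ _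
  rw [h5, h6]
  exact_mod_cast Dvd.intro _ rfl

lemma reach_Y (hdm : P.d ∣ m) (hm : 0 < m) (x : ℤ) (n i : ℕ) :
    ReflTransGen (Step P m) (Y P m x n) (Y P m x (n + i)) := by
  induction i with
  | zero => exact ReflTransGen.refl
  | succ i ih => exact ih.tail (step_Y hdm hm x (n + i))

lemma state_Y (hdm : P.d ∣ m) (hm : 0 < m) (x : ℤ) (n : ℕ) : IsState P m (Y P m x n) := by
  have hM : (0 : ℤ) < m := by exact_mod_cast hm
  refine ⟨x % m, Int.emod_nonneg _ hM.ne', Int.emod_lt_of_pos _ hM, ?_⟩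
  have h0 : Y P m x 0 = (1, x % m) := by
    unfold Y
    simp [kk]
  have := reach_Y hdm hm x 0 n
  rwa [h0, zero_add] at this

/-- The deterministic successor of a class. -/
def next (P : Params) (m : ℕ) (B : ℕ × ℤ) : ℕ × ℤ :=
  (knext P B.1 B.2, T P B.2 % (m * knext P B.1 B.2 : ℕ))

lemma gg_of_not_branching (B : ℕ × ℤ) (h : ¬ Branching P B) : gg P B.1 B.2 = P.d :=
  le_antisymm (gg_le P _ _) (not_lt.1 h)

lemma eq_next {B B' : ℕ × ℤ} (hB : ¬ Branching P B) (h : Step P m B B') : B' = next P m B := by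
  obtain ⟨h1, h2, h3, h4⟩ := (q_pos_iff B B').1 h
  have hg := gg_of_not_branching B hB
  have hk := knext_mul P B.1 B.2
  rw [hg] at hk
  have hM : m * (B.1 * P.δ (B.2 % P.d)) / P.d = m * knext P B.1 B.2 := by
    rw [← hk, ← mul_assoc, Nat.mul_div_cancel _ (d_pos P)]
  rw [hM] at h4
  apply Prod.ext
  · exact h1
  · rw [h1] at h3
    exact (Int.emod_eq_of_lt h2 h3).symm.trans h4

lemma Y_succ (hdm : P.d ∣ m) (hm : 0 < m) (x : ℤ) (n : ℕ) (h : ¬ Branching P (Y P m x n)) :
    Y P m x (n + 1) = next P m (Y P m x n) := eq_next h (step_Y hdm hm x n)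

lemma Y_iter (hdm : P.d ∣ m) (hm : 0 < m) (x : ℤ) (n i : ℕ)
    (h : ∀ t < i, ¬ Branching P ((next P m)^[t] (Y P m x n))) :
    Y P m x (n + i) = (next P m)^[i] (Y P m x n) := by
  induction i with
  | zero => rfl
  | succ i ih =>
    have h1 := ih fun t ht => h t (ht.trans (Nat.lt_succ_self i))
    have h2 := h i (Nat.lt_succ_self i)
    rw [← h1] at h2
    rw [← add_assoc, Y_succ hdm hm x _ h2, h1, Function.iterate_succ_apply']

lemma T_abs (y : ℤ) : |(T P y : ℝ)| ≤ |(P.b (y % P.d) : ℝ)| * P.δ (y % P.d) * |(y : ℝ)| / P.d +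
    ∑ i ∈ Finset.range P.d, |(P.a i : ℝ)| := by
  have hd : (0 : ℝ) < P.d := by exact_mod_cast d_pos P
  have hd1 : (1 : ℝ) ≤ P.d := by exact_mod_cast d_pos P
  have h1 : (P.d : ℝ) * T P y =
      P.b (y % P.d) * P.δ (y % P.d) * y + P.a (y % P.d) := by exact_mod_cast T_mul P y
  have h2 : |(P.a (y % P.d) : ℝ)| ≤ ∑ i ∈ Finset.range P.d, |(P.a i : ℝ)| := by
    obtain ⟨r, hr⟩ := Int.eq_ofNat_of_zero_le (mod_nonneg P y)
    have hlt := mod_lt P y
    rw [hr] at hlt ⊢
    have hr2 : r ∈ Finset.range P.d := by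
      rw [Finset.mem_range]; exact_mod_cast hlt
    exact Finset.single_le_sum (f := fun i : ℕ => |(P.a i : ℝ)|) (fun i _ => abs_nonneg _) hr2
  have h3 : (P.d : ℝ) * |(T P y : ℝ)| ≤
      |(P.b (y % P.d) : ℝ)| * P.δ (y % P.d) * |(y : ℝ)| + |(P.a (y % P.d) : ℝ)| := by
    have h4 : (P.d : ℝ) * |(T P y : ℝ)| = |(P.d : ℝ) * T P y| := by
      rw [abs_mul, abs_of_pos hd]
    rw [h4, h1]
    refine (abs_add_le _ _).trans ?_
    rw [abs_mul, abs_mul, Nat.abs_cast]
  have h5 : |(T P y : ℝ)| ≤ (|(P.b (y % P.d) : ℝ)| * P.δ (y % P.d) * |(y : ℝ)| +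
      |(P.a (y % P.d) : ℝ)|) / P.d := by
    rw [le_div_iff₀ hd, mul_comm]; exact h3
  refine h5.trans ?_
  rw [add_div]
  have h6 : |(P.a (y % P.d) : ℝ)| / P.d ≤ |(P.a (y % P.d) : ℝ)| :=
    div_le_self (abs_nonneg _) hd1
  linarith

lemma prod_div_aux {V : Type*} (w : V → ℝ) (κ : ℝ) (l : List V) :
    (l.map (fun v => w v / κ)).prod = (l.map w).prod / κ ^ l.length := by
  induction l with
  | nil => simp
  | cons a l ih =>
    simp only [List.map_cons, List.prod_cons, List.length_cons, ih, pow_succ]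
    rw [div_mul_div_comm, mul_comm κ]

lemma prod_pos_aux {V : Type*} (w : V → ℝ) (hw : ∀ v, 0 < w v) (l : List V) :
    0 < (l.map w).prod := by
  induction l with
  | nil => simp
  | cons a l ih =>
    simp only [List.map_cons, List.prod_cons]
    exact mul_pos (hw a) ih

/-- A finite graph all of whose simple cycles contract has a contracting potential. -/
lemma potential {V : Type*} [Finite V] (E : V → V → Prop) (w : V → ℝ) (hw : ∀ v, 0 < w v)
    (hcyc : ∀ (a : V) (l : List V), (a :: l).Nodup → List.IsChain E (a :: (l ++ [a])) →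
      ((a :: l).map w).prod < 1) :
    ∃ (φ : V → ℝ) (κ : ℝ), (∀ v, 0 < φ v) ∧ 0 < κ ∧ κ < 1 ∧
      ∀ u v, E u v → w u * φ v ≤ κ * φ u := by
  classical
  have : Fintype V := Fintype.ofFinite V
  have hfinN : {l : List V | l.Nodup}.Finite :=
    Set.finite_coe_iff.1 (inferInstanceAs (Finite {l : List V // l.Nodup}))
  obtain ⟨θ, hθ1, hθ2, hθ⟩ : ∃ θ : ℝ, 1 / 2 ≤ θ ∧ θ < 1 ∧ ∀ (a : V) (l : List V),
      (a :: l).Nodup → List.IsChain E (a :: (l ++ [a])) → ((a :: l).map w).prod ≤ θ := by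
    set s : Set (List V) := {L | L.Nodup ∧ (L.map w).prod < 1} with hs
    have hsf : s.Finite := hfinN.subset fun L hL => hL.1
    have h1 : (insert (1 / 2 : ℝ) ((fun L : List V => (L.map w).prod) '' s)).Finite :=
      (hsf.image _).insert _
    obtain ⟨θ, hmem, hmax⟩ := Set.exists_max_image _ id h1 ⟨_, Set.mem_insert _ _⟩
    refine ⟨θ, hmax _ (Set.mem_insert _ _), ?_, fun a l h2 h3 =>
      hmax _ (Set.mem_insert_of_mem _ ⟨_, ⟨h2, hcyc a l h2 h3⟩, rfl⟩)⟩
    rcases hmem with h2 | ⟨L, hL, h2⟩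
    · rw [h2]; norm_num
    · rw [← h2]; exact hL.2
  have hθ0 : 0 < θ := by linarith
  set N := Fintype.card V with hN
  set κ : ℝ := θ ^ (1 / ((N : ℝ) + 1)) with hκ
  have hκ0 : 0 < κ := Real.rpow_pos_of_pos hθ0 _
  have hκ1 : κ < 1 := Real.rpow_lt_one hθ0.le hθ2 (by positivity)
  have hκN : κ ^ (N + 1) = θ := by
    rw [hκ, ← Real.rpow_natCast, ← Real.rpow_mul hθ0.le]
    push_cast
    rw [one_div, inv_mul_cancel₀ (by positivity), Real.rpow_one]
  set w' : V → ℝ := fun v => w v / κ with hw'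
  have hw'0 : ∀ v, 0 < w' v := fun v => div_pos (hw v) hκ0
  have hcyc' : ∀ (a : V) (l : List V), (a :: l).Nodup → List.IsChain E (a :: (l ++ [a])) →
      ((a :: l).map w').prod ≤ 1 := by
    intro a l h1 h2
    rw [hw', prod_div_aux, div_le_one (pow_pos hκ0 _)]
    refine (hθ a l h1 h2).trans ?_
    rw [← hκN]
    apply pow_le_pow_of_le_one hκ0.le hκ1.le
    have := h1.length_le_card
    omega
  have hF : ∀ v : V, ∃ l, ((v :: l).Nodup ∧ List.IsChain E (v :: l)) ∧
      ∀ l', ((v :: l').Nodup ∧ List.IsChain E (v :: l')) →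
        ((v :: l').map w').prod ≤ ((v :: l).map w').prod := by
    intro v
    have h1 : {l : List V | (v :: l).Nodup ∧ List.IsChain E (v :: l)}.Finite :=
      hfinN.subset fun l hl => (List.nodup_cons.1 hl.1).2
    obtain ⟨l, hl, hmax⟩ := Set.exists_max_image _ (fun l => ((v :: l).map w').prod) h1
      ⟨[], by simp, by simp⟩
    exact ⟨l, hl, hmax⟩
  choose lm hlm hmax using hF
  refine ⟨fun v => ((v :: lm v).map w').prod, κ, fun v => prod_pos_aux w' hw'0 _, hκ0, hκ1, ?_⟩
  intro u v huv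
  have key : w' u * ((v :: lm v).map w').prod ≤ ((u :: lm u).map w').prod := by
    by_cases hu : u ∈ v :: lm v
    · obtain ⟨l1, l2, hl⟩ := List.append_of_mem hu
      obtain ⟨hnd, hch⟩ := hlm v
      rw [hl] at hnd hch
      have h1 : ((u :: l2).map w').prod ≤ ((u :: lm u).map w').prod := by
        apply hmax u l2
        exact ⟨(List.nodup_append.1 hnd).2.1, (List.isChain_split.1 hch).2⟩
      have h2 : ((u :: l1).map w').prod ≤ 1 := by
        apply hcyc' u l1
        · rw [List.nodup_cons]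
          refine ⟨fun h3 => ?_, (List.nodup_append.1 hnd).1⟩
          exact (List.nodup_append.1 hnd).2.2 u h3 u (by simp) rfl
        · rw [List.isChain_cons]
          refine ⟨?_, (List.isChain_split.1 hch).1⟩
          cases l1 with
          | nil =>
            intro y hy
            simp only [List.nil_append, List.cons.injEq] at hl
            simp only [List.nil_append, List.head?_cons, Option.mem_def, Option.some.injEq] at hy
            rw [hl.1] at huv
            rw [← hy]; exact huv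
          | cons c l1 =>
            intro y hy
            simp only [List.cons_append, List.cons.injEq] at hl
            simp only [List.cons_append, List.head?_cons, Option.mem_def, Option.some.injEq] at hy
            rw [← hy, ← hl.1]; exact huv
      rw [hl, List.map_append, List.prod_append, ← mul_assoc]
      have h3 : w' u * (l1.map w').prod = ((u :: l1).map w').prod := by simp
      rw [h3]
      have h4 := prod_pos_aux w' hw'0 (u :: l2)
      calc ((u :: l1).map w').prod * ((u :: l2).map w').prod ≤ 1 * ((u :: l2).map w').prod :=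
            mul_le_mul_of_nonneg_right h2 h4.le
        _ ≤ _ := by rw [one_mul]; exact h1
    · have h1 := hmax u (v :: lm v) ⟨List.nodup_cons.2 ⟨hu, (hlm v).1⟩,
        List.isChain_cons_cons.2 ⟨huv, (hlm v).2⟩⟩
      rw [List.map_cons, List.prod_cons] at h1
      exact h1
  have h5 : w u = κ * w' u := by simp only [hw']; field_simp
  rw [h5, mul_assoc]
  exact mul_le_mul_of_nonneg_left key hκ0.le

lemma chain_succ {V : Type*} (E : V → V → Prop) (a : V) (l : List V)
    (h : List.IsChain E (a :: (l ++ [a]))) (v : V) (hv : v ∈ a :: l) :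
    ∃ v' ∈ a :: l, E v v' := by
  obtain ⟨l1, l2, hl⟩ := List.append_of_mem hv
  have h1 : a :: (l ++ [a]) = l1 ++ v :: (l2 ++ [a]) := by
    rw [← List.cons_append, hl]; simp
  rw [h1] at h
  have h2 := (List.isChain_split.1 h).2
  cases l2 with
  | nil =>
    simp only [List.nil_append, List.isChain_cons_cons] at h2
    exact ⟨a, by simp, h2.1⟩
  | cons c l2 =>
    simp only [List.cons_append, List.isChain_cons_cons] at h2
    exact ⟨c, by rw [hl]; simp, h2.1⟩

lemma weight_pos (B : ℕ × ℤ) : 0 < weight P B := by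
  have h1 : P.b (B.2 % P.d) ≠ 0 := by
    intro h
    have h2 := P.coprime _ (mod_nonneg P B.2) (mod_lt P B.2)
    rw [h, isCoprime_zero_left] at h2
    have h3 := P.two_le
    rcases Int.isUnit_iff.1 h2 with h4 | h4 <;> omega
  have h2 : (0 : ℝ) < |(P.b (B.2 % P.d) : ℝ)| := abs_pos.2 (by exact_mod_cast h1)
  have h3 := gg_pos P B.1 B.2
  have h4 := d_pos P
  unfold weight
  positivity

/-- The product of the weights along a list of classes one of which is branching is not one. -/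
lemma prod_ne_one (L : List (ℕ × ℤ)) (h : ∃ B ∈ L, Branching P B) :
    (L.map (weight P)).prod ≠ 1 := by
  intro hone
  have hd : (0 : ℝ) < P.d := by exact_mod_cast d_pos P
  have key : ∀ L : List (ℕ × ℤ), ((L.map (fun B => (P.b (B.2 % P.d)).natAbs)).prod : ℝ) =
      (L.map (weight P)).prod * ((L.map (fun B => P.d / gg P B.1 B.2)).prod : ℝ) := by
    intro L
    induction L with
    | nil => simp
    | cons B L ih =>
      simp only [List.map_cons, List.prod_cons, Nat.cast_mul]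
      rw [ih]
      have h1 : ((P.d / gg P B.1 B.2 : ℕ) : ℝ) = (P.d : ℝ) / gg P B.1 B.2 :=
        Nat.cast_div (Nat.gcd_dvd_right _ _) (by exact_mod_cast (gg_pos P _ _).ne')
      have h2 : (((P.b (B.2 % P.d)).natAbs : ℕ) : ℝ) = |(P.b (B.2 % P.d) : ℝ)| := by
        rw [Nat.cast_natAbs]; push_cast; rfl
      have h3 : (0 : ℝ) < gg P B.1 B.2 := by exact_mod_cast gg_pos P _ _
      have h4 : weight P B * ((P.d : ℝ) / gg P B.1 B.2) = |(P.b (B.2 % P.d) : ℝ)| := by
        unfold weight; field_simp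
      rw [h1, h2, ← h4]
      ring
  have h1 := key L
  rw [hone, one_mul] at h1
  have h2 : (L.map (fun B => (P.b (B.2 % P.d)).natAbs)).prod =
      (L.map (fun B => P.d / gg P B.1 B.2)).prod := by exact_mod_cast h1
  have h3 : Nat.Coprime (L.map (fun B => (P.b (B.2 % P.d)).natAbs)).prod P.d := by
    apply Nat.coprime_list_prod_left_iff.2
    intro c hc
    obtain ⟨B, _, rfl⟩ := List.mem_map.1 hc
    have h4 := P.coprime _ (mod_nonneg P B.2) (mod_lt P B.2)
    exact Int.isCoprime_iff_gcd_eq_one.1 h4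
  obtain ⟨B, hB, hbr⟩ := h
  have h5 : P.d / gg P B.1 B.2 ∣ (L.map (fun B => P.d / gg P B.1 B.2)).prod :=
    List.dvd_prod (List.mem_map_of_mem (f := fun B => P.d / gg P B.1 B.2) hB)
  have hgd : gg P B.1 B.2 ∣ P.d := Nat.gcd_dvd_right _ _
  have h6 : P.d / gg P B.1 B.2 ∣ P.d := Nat.div_dvd_of_dvd hgd
  rw [← h2] at h5
  have h7 : P.d / gg P B.1 B.2 = 1 := Nat.eq_one_of_dvd_coprimes h3 h5 h6
  have h8 := Nat.div_mul_cancel hgd
  rw [h7, one_mul] at h8
  unfold Branching at hbr
  omega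

/-- Infinitely many branchings and no expanding loop force the trajectory to be eventually
periodic. -/
lemma caseA (hdm : P.d ∣ m) (hm : 0 < m) (hfin : {B | IsState P m B}.Finite) (x : ℤ)
    (hT : ∀ (B : ℕ × ℤ) (l : List (ℕ × ℤ)), (B :: l).Nodup →
      List.IsChain (Recurs P m x) (B :: (l ++ [B])) → (∃ B' ∈ B :: l, Branching P B') →
      ((B :: l).map (weight P)).prod < 1)
    (hinf : ∀ n, ∃ n', n ≤ n' ∧ Branching P (Y P m x n')) :
    ∃ N p : ℕ, 0 < p ∧ (T P)^[N + p] x = (T P)^[N] x := by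
  have hd : (0 : ℝ) < P.d := by exact_mod_cast d_pos P
  have hRf : (Set.range (fun n => (Y P m x n, Y P m x (n + 1)))).Finite :=
    (hfin.prod hfin).subset (by
      rintro _ ⟨n, rfl⟩
      exact ⟨state_Y hdm hm x n, state_Y hdm hm x (n + 1)⟩)
  obtain ⟨N0, hN0⟩ : ∃ N0, ∀ n, N0 ≤ n → Recurs P m x (Y P m x n) (Y P m x (n + 1)) := by
    have h1 : ∀ᶠ n in atTop, ∀ p ∈ Set.range (fun n => (Y P m x n, Y P m x (n + 1))),
        (¬ Recurs P m x p.1 p.2 → ¬ (Y P m x n = p.1 ∧ Y P m x (n + 1) = p.2)) := by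
      rw [eventually_all_finite hRf]
      intro p _
      by_cases h : Recurs P m x p.1 p.2
      · exact Eventually.of_forall fun n h' => absurd h h'
      · have h2 := not_frequently.1 h
        exact h2.mono fun n hn _ => hn
    obtain ⟨N0, hN0⟩ := eventually_atTop.1 h1
    refine ⟨N0, fun n hn => ?_⟩
    by_contra hcon
    exact hN0 n hn (Y P m x n, Y P m x (n + 1)) ⟨n, rfl⟩ hcon ⟨rfl, rfl⟩
  have hVf : (Set.range (fun n => Y P m x (N0 + n))).Finite :=
    hfin.subset (by rintro _ ⟨n, rfl⟩; exact state_Y hdm hm x (N0 + n))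
  have : Finite (Set.range (fun n => Y P m x (N0 + n))) := hVf
  set V := Set.range (fun n => Y P m x (N0 + n)) with hV
  set E : V → V → Prop := fun u v => ∃ n, N0 ≤ n ∧ Y P m x n = u ∧ Y P m x (n + 1) = v with hE
  have hEs : ∀ u v : V, E u v → Recurs P m x u v := by
    rintro u v ⟨n, h0, h1, h2⟩
    rw [← h1, ← h2]
    exact hN0 n h0
  obtain ⟨φ, κ, hφ, hκ0, hκ1, hpot⟩ := potential E (fun v : V => weight P v)
    (fun v => weight_pos _) (by
      intro a l hnd hch
      have h1 : ((a :: l).map (fun v : V => weight P v)) =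
          ((a : ℕ × ℤ) :: l.map Subtype.val).map (weight P) := by
        simp [List.map_map, Function.comp_def]
      rw [h1]
      apply hT
      · have h2 : (a : ℕ × ℤ) :: l.map Subtype.val = (a :: l).map Subtype.val := by simp
        rw [h2]
        exact hnd.map Subtype.val_injective
      · have h2 : (a : ℕ × ℤ) :: (l.map Subtype.val ++ [(a : ℕ × ℤ)]) =
            (a :: (l ++ [a])).map Subtype.val := by simp
        rw [h2, List.isChain_map]
        exact hch.imp fun u v h => hEs u v h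
      · by_contra hcon
        push Not at hcon
        have hnb : ∀ v ∈ a :: l, ¬ Branching P (v : ℕ × ℤ) := by
          intro v hv
          apply hcon
          have : (v : ℕ × ℤ) ∈ (a :: l).map Subtype.val := List.mem_map_of_mem hv
          simpa using this
        obtain ⟨n, hn⟩ := a.2
        have hall : ∀ i, ∃ v ∈ a :: l, Y P m x (N0 + n + i) = (v : ℕ × ℤ) := by
          intro i
          induction i with
          | zero => exact ⟨a, by simp, hn⟩
          | succ i ih =>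
            obtain ⟨v, hv, hyv⟩ := ih
            obtain ⟨v', hv', k, _, hk1, hk2⟩ := chain_succ E a l hch v hv
            refine ⟨v', hv', ?_⟩
            have h3 : ¬ Branching P (Y P m x (N0 + n + i)) := by rw [hyv]; exact hnb v hv
            have h4 : ¬ Branching P (Y P m x k) := by rw [hk1]; exact hnb v hv
            rw [← add_assoc, Y_succ hdm hm x _ h3, hyv, ← hk1, ← Y_succ hdm hm x _ h4, hk2]
        obtain ⟨n', hn', hb⟩ := hinf (N0 + n)
        obtain ⟨i, rfl⟩ := Nat.exists_eq_add_of_le hn'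
        obtain ⟨v, hv, hyv⟩ := hall i
        rw [hyv] at hb
        exact hnb v hv hb)
  obtain ⟨K, hK⟩ : ∃ K, ∀ n, kk P x n ≤ K := by
    obtain ⟨K, hK⟩ := (hfin.image Prod.fst).bddAbove
    exact ⟨K, fun n => hK ⟨_, state_Y hdm hm x n, rfl⟩⟩
  obtain ⟨vM, hvM⟩ : ∃ vM : V, ∀ v, φ v ≤ φ vM := by
    have : Nonempty V := ⟨⟨_, 0, rfl⟩⟩
    exact Finite.exists_max φ
  obtain ⟨vm, hvm⟩ : ∃ vm : V, ∀ v, φ vm ≤ φ v := by
    have : Nonempty V := ⟨⟨_, 0, rfl⟩⟩
    exact Finite.exists_min φ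
  set A : ℝ := ∑ i ∈ Finset.range P.d, |(P.a i : ℝ)| with hA
  have hA0 : 0 ≤ A := Finset.sum_nonneg fun i _ => abs_nonneg _
  set z : ℕ → ℝ := fun n => |(((T P)^[n] x : ℤ) : ℝ)| / kk P x n with hz
  have hz0 : ∀ n, 0 ≤ z n := fun n => by positivity
  have hrec : ∀ n, z (n + 1) ≤ weight P (Y P m x n) * z n + A := by
    intro n
    have hk : (0 : ℝ) < kk P x n := by exact_mod_cast kk_pos P x n
    have hk' : (0 : ℝ) < kk P x (n + 1) := by exact_mod_cast kk_pos P x (n + 1)
    have hk1 : (1 : ℝ) ≤ kk P x (n + 1) := by exact_mod_cast kk_pos P x (n + 1)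
    have h1 : (T P)^[n + 1] x = T P ((T P)^[n] x) := Function.iterate_succ_apply' _ _ _
    have h2 := T_abs (P := P) ((T P)^[n] x)
    have h3 : (kk P x (n + 1) : ℝ) * gg P (kk P x n) ((T P)^[n] x) =
        kk P x n * P.δ ((T P)^[n] x % P.d) := by
      exact_mod_cast knext_mul P (kk P x n) ((T P)^[n] x)
    have hwt : weight P (Y P m x n) = |(P.b ((T P)^[n] x % P.d) : ℝ)| *
        (gg P (kk P x n) ((T P)^[n] x) / P.d) := by
      unfold weight
      rw [gg_Y hdm, Y_mod hdm]
    rw [hwt]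
    simp only [hz]
    rw [h1, div_le_iff₀ hk']
    refine h2.trans ?_
    have h4 : |(P.b ((T P)^[n] x % P.d) : ℝ)| * P.δ ((T P)^[n] x % P.d) *
        |(((T P)^[n] x : ℤ) : ℝ)| / P.d =
        |(P.b ((T P)^[n] x % P.d) : ℝ)| * (gg P (kk P x n) ((T P)^[n] x) / P.d) *
        (|(((T P)^[n] x : ℤ) : ℝ)| / kk P x n) * kk P x (n + 1) := by
      field_simp
      linear_combination (-(|(P.b ((T P)^[n] x % P.d) : ℝ)| * |(((T P)^[n] x : ℤ) : ℝ)|)) * h3
    rw [h4, add_mul]
    have h5 : A ≤ A * kk P x (n + 1) := le_mul_of_one_le_right hA0 hk1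
    linarith
  set v : ℕ → V := fun n => ⟨Y P m x (N0 + n), n, rfl⟩ with hv
  have hstep : ∀ n, weight P (Y P m x (N0 + n)) * φ (v (n + 1)) ≤ κ * φ (v n) := fun n =>
    hpot (v n) (v (n + 1)) ⟨N0 + n, Nat.le_add_right _ _, rfl, rfl⟩
  set U : ℝ := max (z N0 * φ (v 0)) (A * φ vM / (1 - κ)) with hU
  have hU1 : z N0 * φ (v 0) ≤ U := le_max_left _ _
  have hU2 : A * φ vM / (1 - κ) ≤ U := le_max_right _ _
  have h1κ : 0 < 1 - κ := by linarith
  have hU0 : 0 ≤ U := le_trans (mul_nonneg (hz0 N0) (hφ _).le) hU1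
  have hmain : ∀ n, z (N0 + n) * φ (v n) ≤ U := by
    intro n
    induction n with
    | zero => exact hU1
    | succ n ih =>
      have h1 : z (N0 + (n + 1)) * φ (v (n + 1)) ≤
          (weight P (Y P m x (N0 + n)) * z (N0 + n) + A) * φ (v (n + 1)) :=
        mul_le_mul_of_nonneg_right (hrec (N0 + n)) (hφ _).le
      have h2 : weight P (Y P m x (N0 + n)) * φ (v (n + 1)) * z (N0 + n) ≤
          κ * φ (v n) * z (N0 + n) :=
        mul_le_mul_of_nonneg_right (hstep n) (hz0 _)
      have h3 : A * φ (v (n + 1)) ≤ A * φ vM := mul_le_mul_of_nonneg_left (hvM _) hA0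
      have h4 : κ * (z (N0 + n) * φ (v n)) ≤ κ * U := mul_le_mul_of_nonneg_left ih hκ0.le
      have h5 : A * φ vM ≤ (1 - κ) * U := by
        rw [div_le_iff₀ h1κ] at hU2
        linarith
      nlinarith
  have hφm : 0 < φ vm := hφ vm
  have hbound : ∀ n, |(((T P)^[N0 + n] x : ℤ) : ℝ)| ≤ U / φ vm * K := by
    intro n
    have hk : (0 : ℝ) < kk P x (N0 + n) := by exact_mod_cast kk_pos P x (N0 + n)
    have h1 : z (N0 + n) ≤ U / φ vm := by
      rw [le_div_iff₀ hφm]
      exact (mul_le_mul_of_nonneg_left (hvm _) (hz0 _)).trans (hmain n)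
    have h3 : (kk P x (N0 + n) : ℝ) ≤ K := by exact_mod_cast hK (N0 + n)
    have h4 : |(((T P)^[N0 + n] x : ℤ) : ℝ)| = z (N0 + n) * kk P x (N0 + n) := by
      simp only [hz]; rw [div_mul_cancel₀ _ hk.ne']
    rw [h4]
    exact mul_le_mul h1 h3 hk.le (div_nonneg hU0 hφm.le)
  obtain ⟨M, hM⟩ := exists_nat_ge (U / φ vm * K)
  have hmem : ∀ n, (T P)^[N0 + n] x ∈ Set.Icc (-(M : ℤ)) M := by
    intro n
    have h1 := (hbound n).trans hM
    have h2 : |(T P)^[N0 + n] x| ≤ M := by exact_mod_cast h1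
    exact abs_le.1 h2
  obtain ⟨i, j, hij, heq⟩ := Finite.exists_ne_map_eq_of_infinite
    (fun n : ℕ => (⟨(T P)^[N0 + n] x, hmem n⟩ : Set.Icc (-(M : ℤ)) M))
  have heq' : (T P)^[N0 + i] x = (T P)^[N0 + j] x := congrArg Subtype.val heq
  rcases lt_or_gt_of_ne hij with h | h
  · refine ⟨N0 + i, j - i, by omega, ?_⟩
    rw [show N0 + i + (j - i) = N0 + j by omega]; exact heq'.symm
  · refine ⟨N0 + j, i - j, by omega, ?_⟩
    rw [show N0 + j + (i - j) = N0 + i by omega]; exact heq'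

lemma freq_aux (χ : ℕ → ℝ) (s r : ℕ) (hr : 0 < r) (hper : ∀ n, s ≤ n → χ (n + r) = χ n)
    (hsum : ∑ i ∈ Finset.range r, χ (s + i) = 1) :
    Tendsto (fun K : ℕ => (∑ n ∈ Finset.range (K + 1), χ n) / (K + 1)) atTop (𝓝 (1 / r)) := by
  have hrr : (0 : ℝ) < r := by exact_mod_cast hr
  have hwin : ∀ n, s ≤ n → ∑ i ∈ Finset.range r, χ (n + i) = 1 := by
    intro n hn
    induction n, hn using Nat.le_induction with
    | base => exact hsum
    | succ n hn ih =>
      have h1 := Finset.sum_range_succ (fun i => χ (n + i)) r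
      have h2 := Finset.sum_range_succ' (fun i => χ (n + i)) r
      rw [h1, ih, hper n hn] at h2
      have h3 : ∑ i ∈ Finset.range r, χ (n + 1 + i) = ∑ i ∈ Finset.range r, χ (n + (i + 1)) :=
        Finset.sum_congr rfl fun i _ => by rw [show n + 1 + i = n + (i + 1) by omega]
      rw [h3]
      simp only [add_zero] at h2
      linarith
  set F : ℕ → ℝ := fun K => ∑ n ∈ Finset.range K, (χ n - 1 / r) with hF
  have hFper : ∀ K, s ≤ K → F (K + r) = F K := by
    intro K hK
    simp only [hF]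
    rw [Finset.sum_range_add]
    have h1 : ∑ i ∈ Finset.range r, (χ (K + i) - 1 / (r : ℝ)) = 0 := by
      rw [Finset.sum_sub_distrib, hwin K hK]
      simp only [Finset.sum_const, Finset.card_range, nsmul_eq_mul]
      field_simp
      ring
    rw [h1, add_zero]
  set M : ℝ := ∑ i ∈ Finset.range (s + r), |F i| with hM
  have hbd : ∀ K, |F K| ≤ M := by
    intro K
    induction K using Nat.strong_induction_on with
    | _ K ih =>
      rcases Nat.lt_or_ge K (s + r) with h | h
      · exact Finset.single_le_sum (f := fun i => |F i|) (fun i _ => abs_nonneg _)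
          (Finset.mem_range.2 h)
      · obtain ⟨K', rfl⟩ : ∃ K', K = K' + r := ⟨K - r, by omega⟩
        rw [hFper K' (by omega)]
        exact ih K' (by omega)
  have h1 : ∀ K : ℕ, (∑ n ∈ Finset.range (K + 1), χ n) / (K + 1) = 1 / r + F (K + 1) / (K + 1) := by
    intro K
    have hK : (0 : ℝ) < K + 1 := by positivity
    simp only [hF]
    rw [Finset.sum_sub_distrib]
    simp only [Finset.sum_const, Finset.card_range, nsmul_eq_mul]
    push_cast
    field_simp
    ring
  have h2 : Tendsto (fun K : ℕ => F (K + 1) / ((K : ℝ) + 1)) atTop (𝓝 0) := by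
    have h3 : Tendsto (fun K : ℕ => M / ((K : ℝ) + 1)) atTop (𝓝 0) := by
      refine tendsto_const_nhds.div_atTop ?_
      exact tendsto_atTop_add_const_right _ _ tendsto_natCast_atTop_atTop
    refine squeeze_zero_norm (fun K => ?_) h3
    have hK : (0 : ℝ) < K + 1 := by positivity
    rw [Real.norm_eq_abs, abs_div, abs_of_pos hK]
    exact div_le_div_of_nonneg_right (hbd _) hK.le
  have h4 : Tendsto (fun K : ℕ => 1 / (r : ℝ) + F (K + 1) / ((K : ℝ) + 1)) atTop (𝓝 (1 / r + 0)) :=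
    tendsto_const_nhds.add h2
  rw [add_zero] at h4
  exact h4.congr fun K => (h1 K).symm

/-- If the chain along the trajectory stops branching, it ends in a deterministic cycle. -/
lemma caseB (hdm : P.d ∣ m) (hm : 0 < m) (hfin : {B | IsState P m B}.Finite)
    (x : ℤ) (n0 : ℕ) (hn0 : ∀ n, n0 ≤ n → ¬ Branching P (Y P m x n)) : Conclusion P m x := by
  classical
  set y : ℕ → ℕ × ℤ := Y P m x with hy
  have hsucc : ∀ n, n0 ≤ n → y (n + 1) = next P m (y n) := fun n hn =>
    Y_succ hdm hm x n (hn0 n hn)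
  have hshift : ∀ a b, n0 ≤ a → n0 ≤ b → y a = y b → ∀ u, y (a + u) = y (b + u) := by
    intro a b ha hb hab u
    induction u with
    | zero => exact hab
    | succ u ih => rw [← add_assoc, ← add_assoc, hsucc _ (by omega), hsucc _ (by omega), ih]
  have hex : ∃ r, 0 < r ∧ ∃ s, n0 ≤ s ∧ y (s + r) = y s := by
    have : Finite {B | IsState P m B} := hfin
    obtain ⟨i, j, hij, heq⟩ := Finite.exists_ne_map_eq_of_infinite
      (fun n : ℕ => (⟨y (n0 + n), state_Y hdm hm x _⟩ : {B | IsState P m B}))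
    have heq' : y (n0 + i) = y (n0 + j) := congrArg Subtype.val heq
    rcases lt_or_gt_of_ne hij with h | h
    · refine ⟨j - i, by omega, n0 + i, by omega, ?_⟩
      rw [show n0 + i + (j - i) = n0 + j by omega]; exact heq'.symm
    · refine ⟨i - j, by omega, n0 + j, by omega, ?_⟩
      rw [show n0 + j + (i - j) = n0 + i by omega]; exact heq'
  set r := Nat.find hex with hr
  obtain ⟨hr0, s, hs, hsr⟩ := Nat.find_spec hex
  rw [← hr] at hr0 hsr
  have hmin : ∀ r', 0 < r' → (∃ s, n0 ≤ s ∧ y (s + r') = y s) → r ≤ r' := fun r' h1 h2 =>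
    Nat.find_min' hex ⟨h1, h2⟩
  have hper : ∀ n, s ≤ n → y (n + r) = y n := by
    intro n hn
    obtain ⟨u, rfl⟩ := Nat.exists_eq_add_of_le hn
    have := hshift (s + r) s (by omega) hs hsr u
    rw [show s + u + r = s + r + u by omega]
    exact this
  have hperc : ∀ c n, s ≤ n → y (n + r * c) = y n := by
    intro c
    induction c with
    | zero => intro n _; simp
    | succ c ih =>
      intro n hn
      rw [show n + r * (c + 1) = (n + r) + r * c by ring, ih (n + r) (by omega), hper n hn]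
  have hinj : ∀ i j, i < r → j < r → y (s + i) = y (s + j) → i = j := by
    intro i j hi hj h
    by_contra hne
    rcases lt_or_gt_of_ne hne with h' | h'
    · have := hmin (j - i) (by omega) ⟨s + i, by omega, by
        rw [show s + i + (j - i) = s + j by omega]; exact h.symm⟩
      omega
    · have := hmin (i - j) (by omega) ⟨s + j, by omega, by
        rw [show s + j + (i - j) = s + i by omega]; exact h⟩
      omega
  set C : Finset (ℕ × ℤ) := (Finset.range r).image (fun i => y (s + i)) with hC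
  have hmemC : ∀ n, s ≤ n → y n ∈ C := by
    intro n hn
    obtain ⟨u, rfl⟩ := Nat.exists_eq_add_of_le hn
    rw [hC, Finset.mem_image]
    refine ⟨u % r, Finset.mem_range.2 (Nat.mod_lt _ hr0), ?_⟩
    have := hperc (u / r) (s + u % r) (by omega)
    rw [← this, add_assoc, Nat.mod_add_div]
  have hCmem : ∀ B ∈ C, ∃ i, i < r ∧ B = y (s + i) := by
    intro B hB
    rw [hC, Finset.mem_image] at hB
    obtain ⟨i, hi, rfl⟩ := hB
    exact ⟨i, Finset.mem_range.1 hi, rfl⟩
  have hcard : C.card = r := by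
    rw [hC, Finset.card_image_of_injOn, Finset.card_range]
    intro i hi j hj h
    exact hinj i j (Finset.mem_range.1 hi) (Finset.mem_range.1 hj) h
  have hcls : IsClass P m C := by
    refine ⟨⟨y s, hmemC s le_rfl⟩, ?_, ?_, ?_⟩
    · intro B hB
      obtain ⟨i, -, rfl⟩ := hCmem B hB
      exact state_Y hdm hm x _
    · intro B hB B' hst
      obtain ⟨i, -, rfl⟩ := hCmem B hB
      have h1 := eq_next (hn0 (s + i) (by omega)) hst
      rw [h1]
      have h2 := hsucc (s + i) (by omega)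
      change next P m (y (s + i)) ∈ C
      rw [← h2]
      exact hmemC _ (by omega)
    · intro B hB B' hB'
      obtain ⟨i, hi, rfl⟩ := hCmem B hB
      obtain ⟨j, hj, rfl⟩ := hCmem B' hB'
      have h1 : y (s + j) = y (s + i + (j + r * (i + 1) - i)) := by
        have h2 : i ≤ r * (i + 1) := by nlinarith
        rw [show s + i + (j + r * (i + 1) - i) = s + j + r * (i + 1) by omega,
          hperc (i + 1) (s + j) (by omega)]
      rw [h1]
      exact reach_Y hdm hm x _ _
  have hq : ∀ n, s ≤ n → ∀ B', q P m (y n) B' = if B' = y (n + 1) then 1 else 0 := by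
    intro n hn B'
    have hnb := hn0 n (by omega)
    split_ifs with h
    · rw [h, q_eq_of_step _ _ (step_Y hdm hm x n)]
      have h1 := gg_of_not_branching _ hnb
      have hd : (P.d : ℝ) ≠ 0 := by exact_mod_cast (d_pos P).ne'
      change ((gg P (Y P m x n).1 (Y P m x n).2 : ℕ) : ℝ) / P.d = 1
      rw [h1, div_self hd]
    · apply q_eq_zero
      intro hst
      apply h
      rw [hsucc n (by omega)]
      exact eq_next hnb hst
  have hinj2 : ∀ a b, s ≤ a → s ≤ b → y (a + 1) = y (b + 1) → y a = y b := by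
    intro a b ha hb h
    have h1 := hshift (a + 1) (b + 1) (by omega) (by omega) h (r - 1)
    rw [show a + 1 + (r - 1) = a + r by omega, show b + 1 + (r - 1) = b + r by omega,
      hper a ha, hper b hb] at h1
    exact h1
  have hsumq : ∀ (ρ : ℕ × ℤ → ℝ) (n : ℕ), s ≤ n → ∑ B ∈ C, ρ B * q P m B (y (n + 1)) = ρ (y n) := by
    intro ρ n hn
    rw [Finset.sum_eq_single (y n)]
    · rw [hq n hn, if_pos rfl, mul_one]
    · intro B hB hne
      obtain ⟨i, hi, rfl⟩ := hCmem B hB
      rw [hq (s + i) (by omega), if_neg, mul_zero]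
      intro h
      exact hne (hinj2 _ _ (by omega) hn h.symm)
    · intro h
      exact absurd (hmemC n hn) h
  have hrr : (0 : ℝ) < r := by exact_mod_cast hr0
  have hpred : ∀ B ∈ C, ∃ n, s ≤ n ∧ B = y (n + 1) := by
    intro B hB
    obtain ⟨i, hi, rfl⟩ := hCmem B hB
    refine ⟨s + i + r - 1, by omega, ?_⟩
    rw [show s + i + r - 1 + 1 = s + i + r by omega, hper (s + i) (by omega)]
  have hstat : ∀ ρ, IsStationary P m C ρ → ∀ B ∈ C, ρ B = 1 / r := by
    rintro ρ ⟨-, h1, h2⟩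
    have h3 : ∀ n, s ≤ n → ρ (y (n + 1)) = ρ (y n) := fun n hn => by
      rw [h2 _ (hmemC (n + 1) (by omega)), hsumq ρ n hn]
    have h4 : ∀ i, ρ (y (s + i)) = ρ (y s) := by
      intro i
      induction i with
      | zero => rfl
      | succ i ih => rw [← add_assoc, h3 _ (by omega), ih]
    have h5 : ∑ B ∈ C, ρ B = ∑ B ∈ C, ρ (y s) := Finset.sum_congr rfl fun B hB => by
      obtain ⟨i, -, rfl⟩ := hCmem B hB
      exact h4 i
    rw [h5, Finset.sum_const, hcard, nsmul_eq_mul] at h1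
    intro B hB
    obtain ⟨i, -, rfl⟩ := hCmem B hB
    rw [h4 i, eq_div_iff hrr.ne', mul_comm]
    exact h1
  refine ⟨C, hcls, ?_, ⟨fun _ => 1 / r, ?_, ?_, ?_⟩, ?_⟩
  · filter_upwards [eventually_ge_atTop s] with n hn
    exact ⟨y n, hmemC n hn, Y_congr x n⟩
  · intro B _
    positivity
  · rw [Finset.sum_const, hcard, nsmul_eq_mul]
    field_simp
  · intro B' hB'
    obtain ⟨n, hn, rfl⟩ := hpred B' hB'
    exact (hsumq (fun _ => 1 / r) n hn).symm
  · intro ρ hρ B hB
    rw [hstat ρ hρ B hB]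
    obtain ⟨i0, hi0, hB0⟩ := hCmem B hB
    set χ : ℕ → ℝ := fun n => if y n = B then 1 else 0 with hχ
    have h1 := freq_aux χ s r hr0 (fun n hn => by simp only [hχ]; rw [hper n hn]) (by
      rw [Finset.sum_eq_single i0]
      · simp only [hχ]; rw [if_pos hB0.symm]
      · intro i hi hne
        simp only [hχ]
        rw [if_neg]
        intro h
        exact hne (hinj i i0 (Finset.mem_range.1 hi) hi0 (h.trans hB0))
      · intro h
        exact absurd (Finset.mem_range.2 hi0) h)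
    refine h1.congr fun K => ?_
    congr 1
    have h2 : Nat.card {n : ℕ // n ≤ K ∧ Y P m x n = B} =
        ((Finset.range (K + 1)).filter (fun n => y n = B)).card := by
      have e : {n : ℕ // n ≤ K ∧ Y P m x n = B} ≃
          {n : ℕ // n ∈ (Finset.range (K + 1)).filter (fun n => y n = B)} :=
        Equiv.subtypeEquivRight (fun n => by
          rw [Finset.mem_filter, Finset.mem_range, Nat.lt_succ_iff])
      rw [Nat.card_congr e, Nat.card_eq_fintype_card, Fintype.card_coe]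
    rw [h2, Finset.card_filter]
    push_cast
    rfl



/-- If all `b_i` are `1` or `-1`, no product of weights exceeds one. -/
lemma prod_le_of_units (hb : ∀ i : ℤ, 0 ≤ i → i < P.d → |P.b i| = 1) (l : List (ℕ × ℤ)) :
    (l.map (weight P)).prod ≤ 1 := by
  have hd : (0 : ℝ) < P.d := by exact_mod_cast d_pos P
  have hw : ∀ B, weight P B = gg P B.1 B.2 / P.d := fun B => by
    have h1 : |(P.b (B.2 % P.d) : ℝ)| = 1 := by
      exact_mod_cast hb _ (mod_nonneg P B.2) (mod_lt P B.2)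
    unfold weight
    rw [h1, one_mul]
  have hle : ∀ B, weight P B ≤ 1 := fun B => by
    rw [hw, div_le_one hd]; exact_mod_cast gg_le P _ _
  induction l with
  | nil => simp
  | cons a l ih =>
    simp only [List.map_cons, List.prod_cons]
    exact mul_le_one₀ (hle a) (prod_pos_aux _ weight_pos l).le ih

end basic

/-- For a map with a finite chain, a divergent trajectory for which the conclusion of Leigh's
question fails makes infinitely often all transitions of some simple loop through a branching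
state along which the product of the weights exceeds one. In particular the question has a
positive answer if all `b_i` are `1` or `-1`. -/
theorem result :
    (∀ (P : Params) (m : ℕ), 0 < m → P.d ∣ m → {B | IsState P m B}.Finite →
      ∀ x : ℤ, Divergent P x → ¬ Conclusion P m x →
        ∃ (B : ℕ × ℤ) (l : List (ℕ × ℤ)), (B :: l).Nodup ∧
          List.IsChain (Recurs P m x) (B :: (l ++ [B])) ∧ (∃ B' ∈ B :: l, Branching P B') ∧
          1 < ((B :: l).map (weight P)).prod) ∧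
    (∀ (P : Params) (m : ℕ), 0 < m → P.d ∣ m → {B | IsState P m B}.Finite →
      (∀ i : ℤ, 0 ≤ i → i < P.d → |P.b i| = 1) → ∀ x : ℤ, Divergent P x → Conclusion P m x) := by
  have main : ∀ (P : Params) (m : ℕ), 0 < m → P.d ∣ m → {B | IsState P m B}.Finite →
      ∀ x : ℤ, Divergent P x → ¬ Conclusion P m x →
        ∃ (B : ℕ × ℤ) (l : List (ℕ × ℤ)), (B :: l).Nodup ∧
          List.IsChain (Recurs P m x) (B :: (l ++ [B])) ∧ (∃ B' ∈ B :: l, Branching P B') ∧
          1 < ((B :: l).map (weight P)).prod := by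
    intro P m hm hdm hfin x hx hnot
    by_contra hcon
    push Not at hcon
    by_cases h : ∀ n, ∃ n', n ≤ n' ∧ Branching P (Y P m x n')
    · refine hx (caseA hdm hm hfin x (fun B l h1 h2 h3 => ?_) h)
      obtain ⟨B', h4, h5⟩ := h3
      exact lt_of_le_of_ne (hcon B l h1 h2 ⟨B', h4, h5⟩) (prod_ne_one _ ⟨B', h4, h5⟩)
    · push Not at h
      obtain ⟨n0, hn0⟩ := h
      exact hnot (caseB hdm hm hfin x n0 hn0)
  refine ⟨main, fun P m hm hdm hfin hb x hx => ?_⟩
  by_contra hnot
  obtain ⟨B, l, _, _, _, h⟩ := main P m hm hdm hfin x hx hnot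
  exact absurd (prod_le_of_units hb (B :: l)) (not_le.2 h)

end Pool.Agent.Results.MP_f73544_nt.ExpandingLoops
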